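import Pool.Agent.H65.EN.Targets

/-!
# MP_e21eee_nt, row ABQ: abnormal denominators, one denominator
-/

set_option autoImplicit false

namespace Pool.Agent.H50.EN

open Finset MeasureTheory
open Pool.Agent.H24.CL Pool.Agent.H24.LV Pool.Agent.H31.LV Pool.Agent.H50.LV Pool.Agent.H65.EN

/-- the number of the `h` with `c ∣ F h` -/
private lemma count_le (N F c : ℕ) (hF : 1 ≤ F) (hc : 1 ≤ c) :
    ((Ico 1 N).filter fun h => c ∣ F * h).card * c ≤ F * N := by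
  obtain ⟨g, hg⟩ : ∃ g, g = Nat.gcd c F := ⟨_, rfl⟩
  have hg1 : 0 < g := by
    rw [hg]
    exact Nat.gcd_pos_of_pos_left _ hc
  have hgF : g ∣ F := by
    rw [hg]
    exact Nat.gcd_dvd_right _ _
  have hgc : g ∣ c := by
    rw [hg]
    exact Nat.gcd_dvd_left _ _
  obtain ⟨F', hF'⟩ := hgF
  obtain ⟨c', hc'⟩ := hgc
  have hcop : Nat.Coprime c' F' := by
    have h1 := Nat.coprime_div_gcd_div_gcd (m := c) (n := F) (by rw [← hg]; exact hg1)
    rw [← hg] at h1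
    have h2 : c / g = c' := by
      rw [hc']
      exact Nat.mul_div_cancel_left _ hg1
    have h3 : F / g = F' := by
      rw [hF']
      exact Nat.mul_div_cancel_left _ hg1
    rwa [h2, h3] at h1
  have hsub : ((Ico 1 N).filter fun h => c ∣ F * h) ⊆ ((Ioc 0 N).filter fun h => c' ∣ h) := by
    intro h hh
    rw [mem_filter, mem_Ico] at hh
    rw [mem_filter, mem_Ioc]
    refine ⟨by omega, ?_⟩
    have h1 : g * c' ∣ g * (F' * h) := by
      rw [← hc', ← mul_assoc, ← hF']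
      exact hh.2
    exact hcop.dvd_of_dvd_mul_left (Nat.dvd_of_mul_dvd_mul_left hg1 h1)
  have hcard := card_le_card hsub
  rw [Nat.Ioc_filter_dvd_card_eq_div] at hcard
  calc ((Ico 1 N).filter fun h => c ∣ F * h).card * c ≤ (N / c') * (g * c') := by
        rw [hc'] at hcard ⊢
        exact Nat.mul_le_mul_right _ hcard
    _ = g * ((N / c') * c') := by ring
    _ ≤ F * N := Nat.mul_le_mul (Nat.le_of_dvd hF ⟨F', hF'⟩) (Nat.div_mul_le_self _ _)

theorem pf_ABQ (h1 : T_PXC) (h2 : T_CON) (h3 : T_UNF) (h4 : T_WQT) (h5 : T_RSM) : T_ABQ := by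
  classical
  intro k hk
  have hKk : k + 3 ≤ KN k := by
    unfold KN
    rw [Nat.le_div_iff_mul_le (by norm_num)]
    nlinarith
  obtain ⟨C₁, hC₁, hP⟩ := h1 k (KN k) (by omega)
  obtain ⟨s₁, hW⟩ := h4 k hk
  obtain ⟨C₂, hC₂, hR⟩ := h5 k hk
  obtain ⟨K, hK⟩ : ∃ K, K = KN k := ⟨_, rfl⟩
  obtain ⟨F, hF⟩ : ∃ F, F = Nat.factorial k := ⟨_, rfl⟩
  have hF1 : 1 ≤ F := by
    rw [hF]
    exact Nat.factorial_pos k
  have hF1' : (1 : ℝ) ≤ F := by exact_mod_cast hF1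
  rw [← hK] at hKk hP hW hR ⊢
  rw [← hF] at hP
  obtain ⟨k', hk'⟩ : ∃ k', k = k' + 1 := ⟨k - 1, by omega⟩
  obtain ⟨j, hj⟩ : ∃ j, K = k' + 2 + j := ⟨K - k' - 2, by omega⟩
  refine ⟨C₁ * C₂ * (F : ℝ) ^ 2, K + s₁ + 1, ?_, ?_⟩
  · exact one_le_mul_of_one_le_of_one_le (one_le_mul_of_one_le_of_one_le hC₁ hC₂)
      (one_le_pow₀ hF1')
  intro N M₁ q D hN hM₁ hq
  obtain ⟨T, hT⟩ : ∃ T, T = tau q := ⟨_, rfl⟩
  rw [← hT]
  have hNr : (1 : ℝ) ≤ N := by exact_mod_cast hN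
  have hMr : (1 : ℝ) ≤ M₁ := by exact_mod_cast hM₁
  have hqr : (1 : ℝ) ≤ q := by exact_mod_cast hq
  have hlog : 0 ≤ Real.log N := Real.log_nonneg hNr
  obtain ⟨L, hL⟩ : ∃ L : ℝ, L = ((T : ℝ) * (1 + Real.log N)) ^ K := ⟨_, rfl⟩
  have hL0 : 0 ≤ L := by
    rw [hL]
    positivity
  have hct : ∀ (f : Fin k → ℤ) (h : ℕ), 1 ≤ ct q f h ∧ ct q f h ∣ q := by
    intro f h
    unfold ct
    exact ⟨Nat.gcd_pos_of_pos_left _ hq, Nat.gcd_dvd_left _ _⟩
  -- one cell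
  have hA : ∀ f ∈ (Fq k q).filter (fun f => Prim q f), ∀ d ∈ Dc k D,
      volume.real (SB q N M₁ f d) ≤ C₁ * L * ∑ h ∈ Ico 1 N, ((h : ℝ) / ct q f h) ^ (K - 2) *
        ‖GF q f h‖ ^ K * ‖KP N (ec N M₁ d) 0 h‖ ^ K := by
    intro f hf d _
    rw [mem_filter] at hf
    have h6 := hP N T (fun h => GF q f h * KP N (ec N M₁ d) 0 h) (fun h => ct q f h) hN
      (fun h _ => ⟨(hct f h).1, by rw [hF]; exact (h2 k q h f hq hf.2).1⟩) (by
        rw [hT]
        unfold tau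
        apply card_le_card
        intro c hc
        obtain ⟨h, _, rfl⟩ := mem_image.1 hc
        exact Nat.mem_divisors.2 ⟨(hct f h).2, by omega⟩)
    unfold SB
    rw [← hL] at h6
    refine h6.trans (le_of_eq ?_)
    congr 1
    refine sum_congr rfl fun h _ => ?_
    rw [norm_mul, mul_pow, mul_assoc]
  -- the sum over the numerators
  have hB : ∀ h ∈ Ico 1 N, ∑ f ∈ (Fq k q).filter (fun f => Prim q f),
      ((h : ℝ) / ct q f h) ^ (K - 2) * ‖GF q f h‖ ^ K ≤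
      ∑ c ∈ q.divisors.filter (fun c => c ∣ F * h), ((h : ℝ) / c) ^ (K - 2) *
        ((F : ℝ) * (c : ℝ) ^ (k - 1) * ((T : ℝ) ^ s₁ * c / q)) := by
    intro h hh
    rw [mem_Ico] at hh
    have hm : ∀ f ∈ (Fq k q).filter (fun f => Prim q f),
        ct q f h ∈ q.divisors.filter (fun c => c ∣ F * h) := by
      intro f hf
      rw [mem_filter] at hf
      rw [mem_filter, Nat.mem_divisors]
      refine ⟨⟨(hct f h).2, by omega⟩, ?_⟩
      rw [hF]
      exact (h2 k q h f hq hf.2).1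
    rw [← sum_fiberwise_of_maps_to hm]
    refine sum_le_sum fun c hc => ?_
    rw [mem_filter, Nat.mem_divisors] at hc
    have hc1 : 1 ≤ c := Nat.pos_of_dvd_of_pos hc.1.1 hq
    have hcr : (1 : ℝ) ≤ c := by exact_mod_cast hc1
    have h6 : ∑ f ∈ ((Fq k q).filter (fun f => Prim q f)).filter (fun f => ct q f h = c),
        ((h : ℝ) / ct q f h) ^ (K - 2) * ‖GF q f h‖ ^ K =
        ((h : ℝ) / c) ^ (K - 2) *
          ∑ f ∈ (Fq k q).filter (fun f => Prim q f ∧ ct q f h = c), ‖GF q f h‖ ^ K := by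
      rw [filter_filter, mul_sum]
      refine sum_congr rfl fun f hf => ?_
      rw [(mem_filter.1 hf).2.2]
    rw [h6]
    refine mul_le_mul_of_nonneg_left ?_ (by positivity)
    have h7 := h3 k K q h c (by omega) hq hh.1 hc.1.1
    rw [← hF] at h7
    refine h7.trans (mul_le_mul_of_nonneg_left ?_ (by positivity))
    have hqc1 : 1 ≤ q / c := Nat.div_pos (Nat.le_of_dvd hq hc.1.1) hc1
    refine (hW (q / c) hqc1).trans ?_
    have h8 : ((q / c : ℕ) : ℝ) = (q : ℝ) / c := Nat.cast_div hc.1.1 (by positivity)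
    have h9 : (tau (q / c) : ℝ) ≤ T := by
      have : tau (q / c) ≤ tau q := by
        unfold tau
        exact card_le_card (Nat.divisors_subset_of_dvd (by omega) (Nat.div_dvd_of_dvd hc.1.1))
      rw [hT]
      exact_mod_cast this
    rw [h8]
    have h10 : (T : ℝ) ^ s₁ * c / q = (T : ℝ) ^ s₁ / ((q : ℝ) / c) := by
      field_simp
    rw [h10]
    have h11 : 0 < (q : ℝ) / c := by positivity
    exact div_le_div_of_nonneg_right (pow_le_pow_left₀ (Nat.cast_nonneg _) h9 _) h11.le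
  -- the sum over the cells
  obtain ⟨W, hWd⟩ : ∃ W : ℝ, W = C₂ * F * ((T : ℝ) ^ s₁ / q) * ((M₁ : ℝ) * N) ^ k' *
    (N : ℝ) ^ j := ⟨_, rfl⟩
  have hW0 : 0 ≤ W := by
    rw [hWd]
    positivity
  have hD : ∀ h ∈ Ico 1 N, (∑ f ∈ (Fq k q).filter (fun f => Prim q f),
      ((h : ℝ) / ct q f h) ^ (K - 2) * ‖GF q f h‖ ^ K) *
      (∑ d ∈ Dc k D, ‖KP N (ec N M₁ d) 0 h‖ ^ K) ≤
      ∑ c ∈ q.divisors, if c ∣ F * h then W * c else 0 := by
    intro h hh
    have hh' := mem_Ico.1 hh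
    have hhr : (1 : ℝ) ≤ h := by exact_mod_cast hh'.1
    have hhN : (h : ℝ) ≤ N := by exact_mod_cast hh'.2.le
    have h6 := hR N M₁ h D hM₁ hh'.1 hh'.2
    have h7 : 0 ≤ ∑ d ∈ Dc k D, ‖KP N (ec N M₁ d) 0 h‖ ^ K :=
      sum_nonneg fun _ _ => by positivity
    rw [← sum_filter]
    refine (mul_le_mul (hB h hh) h6 h7 (sum_nonneg fun _ _ => by positivity)).trans ?_
    rw [sum_mul]
    refine sum_le_sum fun c hc => ?_
    rw [mem_filter, Nat.mem_divisors] at hc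
    have hc1 : 1 ≤ c := Nat.pos_of_dvd_of_pos hc.1.1 hq
    have hcr : (1 : ℝ) ≤ c := by exact_mod_cast hc1
    have e1 : K - 2 = k' + j := by omega
    have e2 : k - 1 = k' := by omega
    rw [e1, e2, hWd]
    have h8 : (c : ℝ) ^ k' * c ≤ (c : ℝ) ^ (k' + j) * c := by
      refine mul_le_mul_of_nonneg_right (pow_le_pow_right₀ hcr (by omega)) (by positivity)
    have h9 : (h : ℝ) ^ j ≤ (N : ℝ) ^ j := pow_le_pow_left₀ (by positivity) hhN _
    have h10 : ((h : ℝ) / c) ^ (k' + j) * ((F : ℝ) * (c : ℝ) ^ k' * ((T : ℝ) ^ s₁ * c / q)) *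
        (C₂ * ((M₁ : ℝ) * N / h) ^ k') =
        (C₂ * F * ((T : ℝ) ^ s₁ / q) * ((M₁ : ℝ) * N) ^ k') *
          ((h : ℝ) ^ j * ((c : ℝ) ^ k' * c / (c : ℝ) ^ (k' + j))) := by
      rw [div_pow, div_pow, pow_add (h : ℝ)]
      field_simp
    rw [h10]
    have h11 : (c : ℝ) ^ k' * c / (c : ℝ) ^ (k' + j) ≤ c := by
      rw [div_le_iff₀ (by positivity), mul_comm (c : ℝ) ((c : ℝ) ^ (k' + j))]
      exact h8
    have h12 : (h : ℝ) ^ j * ((c : ℝ) ^ k' * c / (c : ℝ) ^ (k' + j)) ≤ (N : ℝ) ^ j * c :=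
      mul_le_mul h9 h11 (by positivity) (by positivity)
    calc _ ≤ (C₂ * F * ((T : ℝ) ^ s₁ / q) * ((M₁ : ℝ) * N) ^ k') * ((N : ℝ) ^ j * c) :=
          mul_le_mul_of_nonneg_left h12 (by positivity)
      _ = C₂ * F * ((T : ℝ) ^ s₁ / q) * ((M₁ : ℝ) * N) ^ k' * (N : ℝ) ^ j * c := by ring
  have hE : ∑ h ∈ Ico 1 N, ∑ c ∈ q.divisors, (if c ∣ F * h then W * c else 0) ≤
      T * (W * (F * N)) := by
    rw [sum_comm]
    have h6 : ∀ c ∈ q.divisors, ∑ h ∈ Ico 1 N, (if c ∣ F * h then W * c else 0) ≤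
        W * (F * N) := by
      intro c hc
      rw [Nat.mem_divisors] at hc
      have hc1 : 1 ≤ c := Nat.pos_of_dvd_of_pos hc.1 hq
      rw [← sum_filter, sum_const, nsmul_eq_mul]
      have h7 : ((((Ico 1 N).filter fun h => c ∣ F * h).card * c : ℕ) : ℝ) ≤
          ((F * N : ℕ) : ℝ) := by exact_mod_cast count_le N F c hF1 hc1
      push_cast at h7
      calc (((Ico 1 N).filter fun h => c ∣ F * h).card : ℝ) * (W * c)
          = W * ((((Ico 1 N).filter fun h => c ∣ F * h).card : ℝ) * c) := by ring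
        _ ≤ W * (F * N) := mul_le_mul_of_nonneg_left h7 hW0
    refine (sum_le_sum h6).trans (le_of_eq ?_)
    rw [sum_const, nsmul_eq_mul, hT]
    rfl
  calc ∑ f ∈ (Fq k q).filter (fun f => Prim q f), ∑ d ∈ Dc k D, volume.real (SB q N M₁ f d)
      ≤ ∑ f ∈ (Fq k q).filter (fun f => Prim q f), ∑ d ∈ Dc k D, C₁ * L * ∑ h ∈ Ico 1 N,
          ((h : ℝ) / ct q f h) ^ (K - 2) * ‖GF q f h‖ ^ K * ‖KP N (ec N M₁ d) 0 h‖ ^ K :=
        sum_le_sum fun f hf => sum_le_sum fun d hd => hA f hf d hd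
    _ = C₁ * L * ∑ h ∈ Ico 1 N, (∑ f ∈ (Fq k q).filter (fun f => Prim q f),
          ((h : ℝ) / ct q f h) ^ (K - 2) * ‖GF q f h‖ ^ K) *
          (∑ d ∈ Dc k D, ‖KP N (ec N M₁ d) 0 h‖ ^ K) := by
        have h6 : ∀ f ∈ (Fq k q).filter (fun f => Prim q f), ∑ d ∈ Dc k D, C₁ * L *
            ∑ h ∈ Ico 1 N, ((h : ℝ) / ct q f h) ^ (K - 2) * ‖GF q f h‖ ^ K *
              ‖KP N (ec N M₁ d) 0 h‖ ^ K = C₁ * L * ∑ h ∈ Ico 1 N,
              ((h : ℝ) / ct q f h) ^ (K - 2) * ‖GF q f h‖ ^ K *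
                ∑ d ∈ Dc k D, ‖KP N (ec N M₁ d) 0 h‖ ^ K := by
          intro f _
          rw [← mul_sum, sum_comm]
          congr 1
          refine sum_congr rfl fun h _ => ?_
          rw [mul_sum]
        rw [sum_congr rfl h6, ← mul_sum, sum_comm]
        congr 1
        refine sum_congr rfl fun h _ => ?_
        rw [sum_mul]
    _ ≤ C₁ * L * (T * (W * (F * N))) := by
        refine mul_le_mul_of_nonneg_left ?_ (by positivity)
        exact (sum_le_sum hD).trans hE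
    _ = C₁ * C₂ * (F : ℝ) ^ 2 * (1 + Real.log N) ^ K *
          ((N : ℝ) ^ (K - 1) * (M₁ : ℝ) ^ (k - 1)) * ((T : ℝ) ^ (K + s₁ + 1) / q) := by
        have e1 : K - 1 = k' + j + 1 := by omega
        have e2 : k - 1 = k' := by omega
        rw [e1, e2, hL, hWd, mul_pow, mul_pow, pow_succ (N : ℝ), pow_add (N : ℝ), pow_succ (T : ℝ),
          pow_add (T : ℝ)]
        ring

end Pool.Agent.H50.EN
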