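import Pool.Agent.H93.EN.Targets4

/-!
# Distance between sides of a polygonal table
-/

namespace Pool.Agent.H50.EN

open MeasureTheory Set Metric Filter Topology Pool.Agent.H93.EN
open Pool.Agent.H93.BL hiding T_B1 T_B2 T_B3 T_SB T_SC

namespace LS1aux

lemma cr_le (a b : ℂ) : |cr a b| ≤ ‖a‖ * ‖b‖ := by
  have h : cr a b = ((starRingEnd ℂ) a * b).im := by
    simp only [cr, Complex.mul_im, Complex.conj_re, Complex.conj_im]; ring
  rw [h]
  calc |((starRingEnd ℂ) a * b).im| ≤ ‖(starRingEnd ℂ) a * b‖ := Complex.abs_im_le_norm _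
    _ = ‖a‖ * ‖b‖ := by rw [norm_mul, Complex.norm_conj]

/-- two segments with a common end point -/
lemma corner (z e e' : ℂ) (h1 : z ≠ e) (h2 : z ≠ e')
    (hd : Disjoint (openSegment ℝ z e) (segment ℝ z e')) :
    ∃ c > (0 : ℝ), ∀ x ∈ openSegment ℝ z e, ∀ y ∈ segment ℝ z e', c * dist x z ≤ dist x y := by
  have ha : 0 < ‖e - z‖ := norm_pos_iff.mpr (sub_ne_zero.mpr (Ne.symm h1))
  have hb : 0 < ‖e' - z‖ := norm_pos_iff.mpr (sub_ne_zero.mpr (Ne.symm h2))
  by_cases hcr : cr (e - z) (e' - z) = 0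
  · -- parallel case
    have hn : ip (e - z) (e - z) = ‖e - z‖ ^ 2 := ip_self _
    have hn0 : (e - z).re ^ 2 + (e - z).im ^ 2 ≠ 0 := by
      have h3 : (e - z).re ^ 2 + (e - z).im ^ 2 = ‖e - z‖ ^ 2 := by
        rw [← hn]; simp only [ip]; ring
      rw [h3]; positivity
    obtain ⟨l, hl⟩ : ∃ l : ℝ, e' - z = (l : ℂ) * (e - z) := by
      refine ⟨((e - z).re * (e' - z).re + (e - z).im * (e' - z).im) /
        ((e - z).re ^ 2 + (e - z).im ^ 2), ?_⟩
      simp only [cr] at hcr
      apply Complex.ext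
      · rw [Complex.re_ofReal_mul, div_mul_eq_mul_div, eq_div_iff hn0]
        linear_combination (-(e - z).im) * hcr
      · rw [Complex.im_ofReal_mul, div_mul_eq_mul_div, eq_div_iff hn0]
        linear_combination (e - z).re * hcr
    have hl0 : l ≠ 0 := by
      rintro rfl
      rw [hl] at hb
      simp at hb
    rcases lt_or_gt_of_ne hl0 with hneg | hpos
    · refine ⟨1, one_pos, ?_⟩
      intro x hx y hy
      rw [openSegment_eq_image'] at hx
      rw [segment_eq_image'] at hy
      obtain ⟨s, hs, rfl⟩ := hx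
      obtain ⟨t, ht, rfl⟩ := hy
      simp only [Complex.real_smul] at *
      rw [hl]
      rw [dist_eq_norm, dist_eq_norm, one_mul]
      have e1 : z + (s : ℂ) * (e - z) - z = (s : ℂ) * (e - z) := by ring
      have e2 : z + (s : ℂ) * (e - z) - (z + (t : ℂ) * ((l : ℂ) * (e - z))) =
          ((s - t * l : ℝ) : ℂ) * (e - z) := by push_cast; ring
      rw [e1, e2, norm_mul, norm_mul, Complex.norm_real, Complex.norm_real, Real.norm_eq_abs,
        Real.norm_eq_abs, abs_of_pos hs.1]
      refine mul_le_mul_of_nonneg_right ?_ ha.le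
      have h4 : 0 ≤ t * (-l) := mul_nonneg ht.1 (by linarith)
      rw [abs_of_nonneg (by nlinarith [hs.1])]
      nlinarith
    · exfalso
      have hm : 0 < min 1 l := lt_min one_pos hpos
      have k1 : z + ((min 1 l / 2 : ℝ) : ℂ) * (e - z) ∈ openSegment ℝ z e := by
        rw [openSegment_eq_image']
        refine ⟨min 1 l / 2, ⟨by positivity, ?_⟩, ?_⟩
        · have := min_le_left (1 : ℝ) l
          linarith
        · simp only [Complex.real_smul]
      have k2 : z + ((min 1 l / 2 : ℝ) : ℂ) * (e - z) ∈ segment ℝ z e' := by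
        rw [segment_eq_image']
        refine ⟨min 1 l / 2 / l, ⟨by positivity, ?_⟩, ?_⟩
        · rw [div_le_one hpos]
          have := min_le_right (1 : ℝ) l
          linarith
        · simp only [Complex.real_smul]
          rw [hl]
          have hlc : (l : ℂ) ≠ 0 := by exact_mod_cast hl0
          push_cast
          field_simp
      exact Set.disjoint_left.mp hd k1 k2
  · refine ⟨|cr (e - z) (e' - z)| / (‖e - z‖ * ‖e' - z‖), by positivity, ?_⟩
    intro x hx y hy
    rw [openSegment_eq_image'] at hx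
    rw [segment_eq_image'] at hy
    obtain ⟨s, hs, rfl⟩ := hx
    obtain ⟨t, ht, rfl⟩ := hy
    simp only [Complex.real_smul] at *
    rw [dist_eq_norm, dist_eq_norm]
    have e1 : z + (s : ℂ) * (e - z) - z = (s : ℂ) * (e - z) := by ring
    rw [e1, norm_mul, Complex.norm_real, Real.norm_eq_abs, abs_of_pos hs.1]
    have h5 := cr_le (z + (s : ℂ) * (e - z) - (z + (t : ℂ) * (e' - z))) (e' - z)
    have e3 : cr (z + (s : ℂ) * (e - z) - (z + (t : ℂ) * (e' - z))) (e' - z) =
        s * cr (e - z) (e' - z) := by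
      have e4 : z + (s : ℂ) * (e - z) - (z + (t : ℂ) * (e' - z)) =
        (s : ℂ) * (e - z) - (t : ℂ) * (e' - z) := by ring
      rw [e4, cr_sub_left, cr_smul_left, cr_smul_left, cr_self]; ring
    rw [e3, abs_mul, abs_of_pos hs.1] at h5
    rw [div_mul_eq_mul_div, div_le_iff₀ (by positivity)]
    nlinarith

/-- disjoint closed segments -/
lemma apart (K₁ K₂ : Set ℂ) (h1 : IsCompact K₁) (h2 : IsCompact K₂) (hd : Disjoint K₁ K₂) :
    ∃ d > (0 : ℝ), ∀ x ∈ K₁, ∀ y ∈ K₂, d ≤ dist x y := by
  rcases (K₁ ×ˢ K₂).eq_empty_or_nonempty with he | hne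
  · refine ⟨1, one_pos, fun x hx y hy => ?_⟩
    have : (x, y) ∈ K₁ ×ˢ K₂ := ⟨hx, hy⟩
    rw [he] at this
    exact this.elim
  · obtain ⟨p, hp, hmin⟩ := (h1.prod h2).exists_isMinOn hne
      (f := fun q : ℂ × ℂ => dist q.1 q.2) (by fun_prop)
    refine ⟨dist p.1 p.2, dist_pos.mpr ?_, ?_⟩
    · intro h
      exact Set.disjoint_left.mp hd hp.1 (h ▸ hp.2)
    · intro x hx y hy
      exact hmin (show (x, y) ∈ K₁ ×ˢ K₂ from ⟨hx, hy⟩)

lemma isCompact_seg (a b : ℂ) : IsCompact (segment ℝ a b) := by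
  rw [segment_eq_image']
  exact isCompact_Icc.image (by fun_prop)

lemma mem_cases {a b z : ℂ} (h : z ∈ segment ℝ a b) : z = a ∨ z = b ∨ z ∈ openSegment ℝ a b := by
  rw [← insert_endpoints_openSegment] at h
  exact h

lemma open_nonempty (a b : ℂ) : (openSegment ℝ a b).Nonempty := by
  rw [openSegment_eq_image']
  exact ⟨_, 1 / 2, ⟨by norm_num, by norm_num⟩, rfl⟩

end LS1aux

open LS1aux

theorem ls1 : T_LS1 := by
  intro ι _ P
  have key : ∀ ij : ι × ι, ∃ c > (0 : ℝ),
      Disjoint (openSegment ℝ (P.p ij.1) (P.q ij.1)) (segment ℝ (P.p ij.2) (P.q ij.2)) →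
      ∀ x ∈ openSegment ℝ (P.p ij.1) (P.q ij.1), ∀ y ∈ segment ℝ (P.p ij.2) (P.q ij.2),
        c * infDist x (VV P) ≤ dist x y := by
    rintro ⟨i, j⟩
    simp only
    by_cases hd : Disjoint (openSegment ℝ (P.p i) (P.q i)) (segment ℝ (P.p j) (P.q j))
    swap
    · exact ⟨1, one_pos, fun h => absurd h hd⟩
    have hpi : P.p i ∈ VV P := ⟨i, Or.inl rfl⟩
    have hqi : P.q i ∈ VV P := ⟨i, Or.inr rfl⟩
    by_cases hcl : Disjoint (segment ℝ (P.p i) (P.q i)) (segment ℝ (P.p j) (P.q j))
    · obtain ⟨d, hd0, hdist⟩ := apart _ _ (isCompact_seg (P.p i) (P.q i))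
        (isCompact_seg (P.p j) (P.q j)) hcl
      have hlen : 0 < dist (P.q i) (P.p i) := dist_pos.mpr (Ne.symm (P.ne i))
      refine ⟨d / dist (P.q i) (P.p i), by positivity, fun _ x hx y hy => ?_⟩
      have hx' : x ∈ segment ℝ (P.p i) (P.q i) := openSegment_subset_segment _ _ _ hx
      have h1 : infDist x (VV P) ≤ dist x (P.p i) := infDist_le_dist_of_mem hpi
      have h2 : dist x (P.p i) ≤ dist (P.q i) (P.p i) := by
        have h3 := dist_add_dist_of_mem_segment hx'
        rw [dist_comm x, dist_comm (P.q i)]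
        have : 0 ≤ dist x (P.q i) := dist_nonneg
        linarith
      calc d / dist (P.q i) (P.p i) * infDist x (VV P)
          ≤ d / dist (P.q i) (P.p i) * dist (P.q i) (P.p i) :=
            mul_le_mul_of_nonneg_left (h1.trans h2) (by positivity)
        _ = d := by field_simp
        _ ≤ dist x y := hdist x hx' y hy
    · -- a common point
      obtain ⟨z, hz1, hz2⟩ := Set.not_disjoint_iff.mp hcl
      have hzo : z ∉ openSegment ℝ (P.p i) (P.q i) := fun h => Set.disjoint_left.mp hd h hz2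
      have hz3 : z = P.p i ∨ z = P.q i := by
        rcases mem_cases hz1 with h | h | h
        · exact Or.inl h
        · exact Or.inr h
        · exact absurd h hzo
      have hz4 : z = P.p j ∨ z = P.q j := by
        rcases mem_cases hz2 with h | h | h
        · exact Or.inl h
        · exact Or.inr h
        · exfalso
          have hij : j ≠ i := by
            rintro rfl
            exact hzo h
          rcases P.meet j i hij with h5 | h5
          · exact Set.disjoint_left.mp h5 h hz1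
          · obtain ⟨w, hw⟩ := open_nonempty (P.p i) (P.q i)
            refine Set.disjoint_left.mp hd hw ?_
            rw [h5.1, h5.2, openSegment_symm] at hw
            exact openSegment_subset_segment _ _ _ hw
      have fin : ∀ e e' : ℂ, z ≠ e → z ≠ e' → z ∈ VV P →
          openSegment ℝ (P.p i) (P.q i) = openSegment ℝ z e →
          segment ℝ (P.p j) (P.q j) = segment ℝ z e' →
          ∃ c > (0 : ℝ),
            Disjoint (openSegment ℝ (P.p i) (P.q i)) (segment ℝ (P.p j) (P.q j)) →
            ∀ x ∈ openSegment ℝ (P.p i) (P.q i), ∀ y ∈ segment ℝ (P.p j) (P.q j),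
              c * infDist x (VV P) ≤ dist x y := by
        intro e e' he he' hzV e1 e2
        rw [e1, e2] at hd ⊢
        obtain ⟨c, hc, hcc⟩ := corner z e e' he he' hd
        refine ⟨c, hc, fun _ x hx y hy => ?_⟩
        exact (mul_le_mul_of_nonneg_left (infDist_le_dist_of_mem hzV) hc.le).trans
          (hcc x hx y hy)
      rcases hz3 with h | h <;> rcases hz4 with h' | h'
      · exact fin (P.q i) (P.q j) (h ▸ P.ne i) (h' ▸ P.ne j) (h ▸ hpi) (by rw [h]) (by rw [h'])
      · exact fin (P.q i) (P.p j) (h ▸ P.ne i) (h' ▸ (P.ne j).symm) (h ▸ hpi) (by rw [h])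
          (by rw [h', segment_symm])
      · exact fin (P.p i) (P.q j) (h ▸ (P.ne i).symm) (h' ▸ P.ne j) (h ▸ hqi)
          (by rw [h, openSegment_symm]) (by rw [h'])
      · exact fin (P.p i) (P.p j) (h ▸ (P.ne i).symm) (h' ▸ (P.ne j).symm) (h ▸ hqi)
          (by rw [h, openSegment_symm]) (by rw [h', segment_symm])
  choose c hc hcc using key
  rcases isEmpty_or_nonempty ι with he | hne
  · exact ⟨1, one_pos, fun i => (he.false i).elim⟩
  · obtain ⟨m, hm⟩ := Finite.exists_min c
    refine ⟨c m, hc m, fun i j hd x hx y hy => ?_⟩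
    exact (mul_le_mul_of_nonneg_right (hm (i, j)) infDist_nonneg).trans (hcc (i, j) hd x hx y hy)

end Pool.Agent.H50.EN
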