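import Pool.Agent.H93.EN.Targets4

/-!
# Ball integrals of the local extensions
-/

namespace Pool.Agent.H50.EN

open MeasureTheory Set Metric Filter Topology Pool.Agent.H93.EN
open Pool.Agent.H93.BL hiding T_B1 T_B2 T_B3 T_SB T_SC

namespace MUaux

lemma av_nonneg {g : ℂ → ℝ} (h : ∀ w, 0 ≤ g w) : 0 ≤ av g := by
  unfold av
  refine mul_nonneg (by positivity) ?_
  exact intervalIntegral.integral_nonneg (by positivity) fun _ _ => h _

lemma av_le_one {g : ℂ → ℝ} (h : ∀ w, 0 ≤ g w ∧ g w ≤ 1) : av g ≤ 1 := by
  unfold av
  have hpi : 0 < 2 * Real.pi := by positivity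
  have h1 : ‖∫ θ in (0 : ℝ)..(2 * Real.pi), g (Complex.exp ((θ : ℂ) * Complex.I))‖ ≤
      1 * |2 * Real.pi - 0| := by
    refine intervalIntegral.norm_integral_le_of_norm_le_const fun x _ => ?_
    rw [Real.norm_eq_abs, abs_le]
    have := h (Complex.exp ((x : ℂ) * Complex.I))
    constructor <;> linarith
  rw [sub_zero, one_mul, abs_of_pos hpi] at h1
  have h2 := (le_abs_self _).trans h1
  calc (2 * Real.pi)⁻¹ * ∫ θ in (0 : ℝ)..(2 * Real.pi), g (Complex.exp ((θ : ℂ) * Complex.I))
      ≤ (2 * Real.pi)⁻¹ * (2 * Real.pi) := mul_le_mul_of_nonneg_left h2 (by positivity)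
    _ = 1 := inv_mul_cancel₀ hpi.ne'

lemma av_meas {F : ℂ → ℂ → ℝ} (hF : Measurable (Function.uncurry F)) :
    Measurable fun y => av (F y) := by
  unfold av
  have hpi : (0 : ℝ) ≤ 2 * Real.pi := by positivity
  refine Measurable.const_mul ?_ _
  simp only [intervalIntegral.integral_of_le hpi]
  have h1 : StronglyMeasurable (Function.uncurry fun (y : ℂ) (θ : ℝ) =>
      F y (Complex.exp ((θ : ℂ) * Complex.I))) := by
    refine Measurable.stronglyMeasurable ?_
    have h2 : Measurable fun z : ℂ × ℝ => (z.1, Complex.exp ((z.2 : ℂ) * Complex.I)) := by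
      fun_prop
    exact hF.comp h2
  exact (h1.integral_prod_right (ν := volume.restrict (Ioc 0 (2 * Real.pi)))).measurable

variable {ι : Type} (P : Polygon ι)

lemma aff_cont (j : ι) : Continuous (P.aff j) := by
  unfold Polygon.aff
  have := Complex.continuous_conj
  fun_prop

/-- the affine reflection as a measurable equivalence -/
noncomputable def affE (j : ι) : ℂ ≃ᵐ ℂ where
  toFun := P.aff j
  invFun := P.aff j
  left_inv := P.aff_aff j
  right_inv := P.aff_aff j
  measurable_toFun := (aff_cont P j).measurable
  measurable_invFun := (aff_cont P j).measurable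

lemma affE_coe (j : ι) : (affE P j : ℂ → ℂ) = P.aff j := rfl

lemma aff_mp (j : ι) : MeasurePreserving (P.aff j) volume volume := by
  have hu : ‖P.u j ^ 2‖ = 1 := by rw [norm_pow, P.norm_u, one_pow]
  let c : Circle := ⟨P.u j ^ 2, mem_sphere_zero_iff_norm.2 hu⟩
  have h1 := measurePreserving_sub_right (volume : Measure ℂ) (P.p j)
  have h2 : MeasurePreserving (Complex.conjLIE : ℂ → ℂ) volume volume :=
    LinearIsometryEquiv.measurePreserving Complex.conjLIE
  have h3 : MeasurePreserving (rotation c : ℂ → ℂ) volume volume :=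
    LinearIsometryEquiv.measurePreserving (rotation c)
  have h4 := measurePreserving_add_left (volume : Measure ℂ) (P.p j)
  have h5 := h4.comp (h3.comp (h2.comp h1))
  have e : ((fun x => P.p j + x) ∘ (rotation c : ℂ → ℂ) ∘ (Complex.conjLIE : ℂ → ℂ) ∘
      (fun x => x - P.p j)) = P.aff j := by
    funext y
    simp only [Function.comp_apply, rotation_apply, Complex.conjLIE_apply]
    rfl
  rw [← e]
  exact h5

end MUaux

open MUaux

theorem mu (h1 : T_CHT) (h2 : T_B3) (h3 : T_B2) : T_MU := by
  intro ι P F hF x R τ hx hch δ hδ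
  have hnn : ∀ y, 0 ≤ av (F y) := fun y => av_nonneg fun w => (hF.bd y w).1
  have hle : ∀ y, av (F y) ≤ 1 := fun y => av_le_one (hF.bd y)
  have hfm : Measurable fun y => av (F y) := av_meas hF.meas
  have hint : ∀ S : Set ℂ, S ⊆ ball x δ → IntegrableOn (fun y => av (F y)) S := by
    intro S hS
    have hb : IntegrableOn (fun y => av (F y)) (ball x δ) := by
      refine Measure.integrableOn_of_bounded (M := 1) measure_ball_lt_top.ne
        hfm.aestronglyMeasurable ?_
      refine Eventually.of_forall fun y => ?_
      rw [Real.norm_eq_abs, abs_of_nonneg (hnn y)]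
      exact hle y
    exact hb.mono_set hS
  have hball : ball x δ ⊆ ball x R := ball_subset_ball hδ.2
  rcases τ with _ | j
  · have hsub : ball x δ ∩ P.Ω = ball x δ := inter_eq_left.mpr (hball.trans hch)
    rw [hsub]
    have h0 : 0 ≤ ∫ y in ball x δ, av (F y) := integral_nonneg fun y => hnn y
    show ∫ y in ball x δ, av (F y) ≤ _
    linarith
  · obtain ⟨hs0, hs1, hs2⟩ := hch
    obtain ⟨-, c2, -, -, c5⟩ := h1 ι P
    have hsgm : Measurable fun y => sg P j y := by
      have : Continuous fun y => sg P j y := by
        unfold sg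
        exact (continuous_cr_right _).comp (by fun_prop)
      exact this.measurable
    set T : Set ℂ := {y | 0 < sg P j y} with hT
    have hTm : MeasurableSet T := measurableSet_lt measurable_const hsgm
    -- pointwise description
    have hpt : ∀ y, av (Phi P F (some j) y) =
        if 0 < sg P j y then av (F y) else av (F (P.aff j y)) := by
      intro y
      by_cases hy : 0 < sg P j y
      · rw [if_pos hy]
        have : Phi P F (some j) y = F y := by
          funext w
          simp only [Phi, if_pos hy]
        rw [this]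
      · rw [if_neg hy]
        have : Phi P F (some j) y = fun w => F (P.aff j y) (rf (P.u j) w) := by
          funext w
          simp only [Phi, if_neg hy]
          rfl
        rw [this]
        exact (h2 (F (P.aff j y)) (P.u j) (P.norm_u j)).1
    have hgm : Measurable fun y => if 0 < sg P j y then av (F y) else av (F (P.aff j y)) :=
      Measurable.ite hTm hfm (hfm.comp (aff_cont P j).measurable)
    have hgi : IntegrableOn (fun y => if 0 < sg P j y then av (F y) else av (F (P.aff j y)))
        (ball x δ) := by
      refine Measure.integrableOn_of_bounded (M := 1) measure_ball_lt_top.ne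
        hgm.aestronglyMeasurable ?_
      refine Eventually.of_forall fun y => ?_
      split_ifs
      · rw [Real.norm_eq_abs, abs_of_nonneg (hnn _)]
        exact hle _
      · rw [Real.norm_eq_abs, abs_of_nonneg (hnn _)]
        exact hle _
    simp only [hpt]
    rw [← integral_inter_add_sdiff hTm hgi]
    have e1 : ∫ y in ball x δ ∩ T, (if 0 < sg P j y then av (F y) else av (F (P.aff j y))) =
        ∫ y in ball x δ ∩ T, av (F y) := by
      refine setIntegral_congr_fun (measurableSet_ball.inter hTm) fun y hy => ?_
      exact if_pos hy.2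
    have e2 : ∫ y in ball x δ \ T, (if 0 < sg P j y then av (F y) else av (F (P.aff j y))) =
        ∫ y in ball x δ \ T, av (F (P.aff j y)) := by
      refine setIntegral_congr_fun (measurableSet_ball.diff hTm) fun y hy => ?_
      exact if_neg hy.2
    rw [e1, e2]
    have k1 : ∫ y in ball x δ ∩ T, av (F y) ≤ ∫ y in ball x δ ∩ P.Ω, av (F y) := by
      refine setIntegral_mono_set (hint _ inter_subset_left)
        (Eventually.of_forall fun y => hnn y) ?_
      exact LE.le.eventuallyLE fun y hy => ⟨hy.1, hs1 y (hball hy.1) hy.2⟩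
    have k2 : ∫ y in ball x δ \ T, av (F (P.aff j y)) ≤
        ∫ y in (P.aff j) ⁻¹' (ball x δ ∩ {y | 0 ≤ sg P j y}), av (F (P.aff j y)) := by
      refine setIntegral_mono_set ?_ (Eventually.of_forall fun y => hnn _) ?_
      · rw [← affE_coe]
        have := ((aff_mp P j).integrableOn_comp_preimage (affE P j).measurableEmbedding
          (f := fun y => av (F y)) (s := ball x δ ∩ {y | 0 ≤ sg P j y})).mpr
          (hint _ inter_subset_left)
        exact this
      · refine LE.le.eventuallyLE fun y hy => ?_
        have hy2 : sg P j y ≤ 0 := not_lt.mp hy.2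
        have c3 := c2 j y x
        refine ⟨?_, ?_⟩
        · exact (c3.2.2 hs0 hy2).trans_lt hy.1
        · show 0 ≤ sg P j (P.aff j y)
          rw [c3.1]
          linarith
    have k3 : ∫ y in (P.aff j) ⁻¹' (ball x δ ∩ {y | 0 ≤ sg P j y}), av (F (P.aff j y)) =
        ∫ y in ball x δ ∩ {y | 0 ≤ sg P j y}, av (F y) :=
      (aff_mp P j).setIntegral_preimage_emb (affE P j).measurableEmbedding
        (fun y => av (F y)) _
    have k4 : ∫ y in ball x δ ∩ {y | 0 ≤ sg P j y}, av (F y) ≤
        ∫ y in ball x δ ∩ P.Ω, av (F y) := by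
      refine setIntegral_mono_set (hint _ inter_subset_left)
        (Eventually.of_forall fun y => hnn y) ?_
      have hnull : ∀ᵐ y : ℂ, ¬ (sg P j y = 0) := by
        rw [ae_iff]
        simp only [not_not]
        exact c5 j
      filter_upwards [hnull] with y hy hyS
      have hpos : 0 < sg P j y := lt_of_le_of_ne hyS.2 (Ne.symm hy)
      exact ⟨hyS.1, hs1 y (hball hyS.1) hpos⟩
    rw [k3] at k2
    linarith

end Pool.Agent.H50.EN
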